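import Pool.Agent.Helper97.TN.St2

set_option autoImplicit false

namespace Pool.Agent.Helper45.TN

open NumberField IsDedekindDomain Polynomial Filter Topology
open Pool.Agent.Helper97.TN Pool.Agent.Helper95.TT Pool.Agent.Helper96.BC
open scoped Classical

noncomputable section

theorem two_le_q {k : Type} [Field k] [NumberField k] (v : Pr k) : (2 : ℝ) ≤ (q v : ℝ) := by
  have h0 : Ideal.absNorm v.asIdeal ≠ 0 := by
    rw [Ne, Ideal.absNorm_eq_zero_iff]
    exact v.ne_bot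
  have h1 : Ideal.absNorm v.asIdeal ≠ 1 := by
    rw [Ne, Ideal.absNorm_eq_one_iff]
    exact v.isPrime.ne_top
  have h2 : 2 ≤ q v := by
    unfold q
    omega
  exact_mod_cast h2

/-- the action on embeddings -/
@[reducible] def act (k K L : Type) [Field k] [Field K] [Field L] [Algebra k K] [Algebra k L] :
    MulAction (L ≃ₐ[k] L) (K →ₐ[k] L) where
  smul g x := (g : L →ₐ[k] L).comp x
  one_smul x := by
    refine AlgHom.ext fun z => ?_
    rfl
  mul_smul g h x := by
    refine AlgHom.ext fun z => ?_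
    rfl

theorem act_apply {k K L : Type} [Field k] [Field K] [Field L] [Algebra k K] [Algebra k L]
    (g : L ≃ₐ[k] L) (x : K →ₐ[k] L) (z : K) :
    ((act k K L).toSMul.smul g x) z = g (x z) := rfl

theorem smul_eq_iff {k K L : Type} [Field k] [Field K] [Field L] [Algebra k K] [Algebra k L]
    (g : L ≃ₐ[k] L) (x y : K →ₐ[k] L) :
    (act k K L).toSMul.smul g x = y ↔ ∀ z, g (x z) = y z := by
  constructor
  · intro h z; rw [← h]; rfl
  · intro h; exact AlgHom.ext h

theorem card_emb (k K L : Type) [Field k] [NumberField k] [Field K] [NumberField K] [Field L]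
    [NumberField L] [Algebra k K] [Algebra k L] [Algebra K L] [IsScalarTower k K L] [IsGalois k L] :
    Nat.card (K →ₐ[k] L) = Module.finrank k K := by
  have hfd : FiniteDimensional k K := Module.Finite.of_restrictScalars_finite ℚ k K
  have hfd' : FiniteDimensional k L := Module.Finite.of_restrictScalars_finite ℚ k L
  rw [Nat.card_eq_fintype_card]
  refine AlgHom.card_of_splits k K L fun x => ?_
  have h1 : minpoly k x = minpoly k (algebraMap K L x) :=
    (minpoly.algebraMap_eq (algebraMap K L).injective x).symm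
  rw [h1]
  exact Normal.splits (inferInstance : Normal k L) _

theorem fx_eq (k K L : Type) [Field k] [Field K] [Field L] [Algebra k K] [Algebra k L]
    (g : L ≃ₐ[k] L) : @fx (L ≃ₐ[k] L) _ (K →ₐ[k] L) (act k K L) g = fxK k K g := by
  unfold fx fxK
  congr 1
  exact Nat.card_congr (Equiv.subtypeEquivRight fun x => smul_eq_iff g x x)

theorem B4a (hB4 : StB4) (k K L : Type) [Field k] [NumberField k] [Field K] [NumberField K]
    [Field L] [NumberField L] [Algebra k K] [Algebra k L] [Algebra K L] [IsScalarTower k K L]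
    [IsGalois k L] (h2 : 2 ≤ Module.finrank k K)
    (htr : ∀ x y x' y' : K →ₐ[k] L, x ≠ y → x' ≠ y' →
      ∃ g : L ≃ₐ[k] L, (∀ z, g (x z) = x' z) ∧ ∀ z, g (y z) = y' z) :
    avg (fun g : L ≃ₐ[k] L => (fxK k K g - 1) ^ 2) = 1 ∧
    ∀ (K' : Type) [Field K'] [NumberField K'] [Algebra k K'] [Algebra K' L]
      [IsScalarTower k K' L], 2 ≤ Module.finrank k K' →
      (∀ x y x' y' : K' →ₐ[k] L, x ≠ y → x' ≠ y' →
        ∃ g : L ≃ₐ[k] L, (∀ z, g (x z) = x' z) ∧ ∀ z, g (y z) = y' z) →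
      (∃ g : L ≃ₐ[k] L, ¬ ((∀ (x : K →ₐ[k] L) (z : K), g (x z) = x z) ↔
        ∀ (x : K' →ₐ[k] L) (z : K'), g (x z) = x z)) →
      ∀ (x x' : K →ₐ[k] L) (y y' : K' →ₐ[k] L),
        ∃ g : L ≃ₐ[k] L, (∀ z, g (x z) = x' z) ∧ ∀ z, g (y z) = y' z := by
  have hfd : FiniteDimensional k L := Module.Finite.of_restrictScalars_finite ℚ k L
  have hfdK : FiniteDimensional k K := Module.Finite.of_restrictScalars_finite ℚ k K
  have hfin : Finite (L ≃ₐ[k] L) := inferInstance
  have hc : 2 ≤ Nat.card (K →ₐ[k] L) := by rw [card_emb k K L]; exact h2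
  obtain ⟨h1, h3⟩ := @hB4 (L ≃ₐ[k] L) _ _ (K →ₐ[k] L) _ (act k K L) hc (by
    intro x y x' y' hxy hxy'
    obtain ⟨g, hg1, hg2⟩ := htr x y x' y' hxy hxy'
    exact ⟨g, (smul_eq_iff g x x').2 hg1, (smul_eq_iff g y y').2 hg2⟩)
  refine ⟨?_, ?_⟩
  · have e : (fun g : L ≃ₐ[k] L => (fxK k K g - 1) ^ 2) =
        (fun g : L ≃ₐ[k] L => (@fx (L ≃ₐ[k] L) _ (K →ₐ[k] L) (act k K L) g - 1) ^ 2) := by
      funext g
      rw [fx_eq]
    rw [e]
    exact h1
  · intro K' _ _ _ _ _ h2' htr' hdiff x x' y y'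
    have hfdK' : FiniteDimensional k K' := Module.Finite.of_restrictScalars_finite ℚ k K'
    have hc' : 2 ≤ Nat.card (K' →ₐ[k] L) := by rw [card_emb k K' L]; exact h2'
    obtain ⟨g, hg1, hg2⟩ := @h3 (K' →ₐ[k] L) _ (act k K' L) hc' (by
      intro x y x' y' hxy hxy'
      obtain ⟨g, hg1, hg2⟩ := htr' x y x' y' hxy hxy'
      exact ⟨g, (smul_eq_iff g x x').2 hg1, (smul_eq_iff g y y').2 hg2⟩) (by
      obtain ⟨g, hg⟩ := hdiff
      refine ⟨g, fun h => hg ⟨fun h5 x z => ?_, fun h5 x z => ?_⟩⟩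
      · exact (smul_eq_iff g x x).1 (h.1 (fun x => (smul_eq_iff g x x).2 (h5 x)) x) z
      · exact (smul_eq_iff g x x).1 (h.2 (fun x => (smul_eq_iff g x x).2 (h5 x)) x) z) x x' y y'
    exact ⟨g, (smul_eq_iff g x x').1 hg1, (smul_eq_iff g y y').1 hg2⟩

theorem hB5 (hA10 : StA10) (hB3 : StB3) (hB4 : StB4) : StB5 := by
  intro k _ _ b c B C R₀ hR₀ hb L _ _ _ _ ι _ K _ _ _ _ _ bK R hR hdeg htr hdiff hbK hbK2
  obtain ⟨hS0, hSi, hmain⟩ := hB3 k b c B C R₀ hR₀ hb L ι K bK R hR (by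
    intro i j hij x x' y y'
    exact (B4a hB4 k (K i) L (hdeg i) (htr i)).2 (K j) (hdeg j) (htr j) (hdiff i j hij) x x' y y')
    hbK hbK2
  have havg : ∀ i, avg (fun g : L ≃ₐ[k] L => (fxK k (K i) g - 1) ^ 2) = 1 :=
    fun i => (B4a hB4 k (K i) L (hdeg i) (htr i)).1
  have hineq : ∀ ε > 0, ∀ᶠ s : ℝ in 𝓝[>] 2,
      ∑ i, ((s - 2) * FK (R i) (bK i) s - (s - 2) * FK R₀ b s) ^ 2 ≤ B ^ 2 + ε := by
    intro ε hε
    filter_upwards [hmain ε hε] with s hs
    simp only [havg, div_one] at hs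
    exact hs
  refine ⟨hS0, hSi, hineq, ?_⟩
  intro ρ hρ
  let P : ι → Prop := fun i => (∃ G : ℂ → ℂ, MeromorphicAt G 2 ∧ ∀ᶠ s : ℝ in 𝓝[>] 2, G s =
        ((Real.exp (∑' w : Pr (K i), if w ∈ R i then 0 else bK i w * (q w : ℝ) ^ (-s)) : ℝ) : ℂ)) ∧
    ¬ Tendsto (fun s : ℝ => (s - 2) * FK (R i) (bK i) s) (𝓝[>] 2) (𝓝 ρ)
  refine ⟨Finset.univ.filter P, ?_, ?_⟩
  · have hn : ∀ i, ∃ n : ℤ, P i → n ≠ ρ ∧
        Tendsto (fun s : ℝ => (s - 2) * FK (R i) (bK i) s) (𝓝[>] 2) (𝓝 n) := by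
      intro i
      by_cases hPi : P i
      · obtain ⟨⟨G, hG, hGe⟩, hnt⟩ := hPi
        have hcong : ∀ s : ℝ, (fun w : Pr (K i) => (if w ∈ R i then 0 else bK i w) *
            Real.log (q w) * (q w : ℝ) ^ (-s)) = fun w : Pr (K i) =>
            if w ∈ R i then 0 else bK i w * Real.log (q w) * (q w : ℝ) ^ (-s) := by
          intro s; funext w; split_ifs <;> ring
        obtain ⟨n, hn⟩ := hA10 (Pr (K i)) (fun w => if w ∈ R i then 0 else bK i w)
          (fun v => (q v : ℝ)) two_le_q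
          (fun s hs => by rw [hcong s]; exact hSi i s hs) G hG (by
            filter_upwards [hGe] with s hs
            rw [hs]
            congr 3
            funext w; split_ifs <;> ring)
        refine ⟨n, fun _ => ⟨?_, ?_⟩⟩
        · rintro rfl
          apply hnt
          refine hn.congr fun s => ?_
          rw [hcong s]; rfl
        · refine hn.congr fun s => ?_
          rw [hcong s]; rfl
      · exact ⟨0, fun h => absurd h hPi⟩
    choose n hn using hn
    set S := Finset.univ.filter P with hSdef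
    have hlim : Tendsto (fun s : ℝ => ∑ i ∈ S,
        ((s - 2) * FK (R i) (bK i) s - (s - 2) * FK R₀ b s) ^ 2) (𝓝[>] 2)
        (𝓝 (∑ i ∈ S, ((n i : ℝ) - ρ) ^ 2)) := by
      apply tendsto_finsetSum
      intro i hi
      have hPi : P i := (Finset.mem_filter.1 hi).2
      exact ((hn i hPi).2.sub hρ).pow 2
    have hle : ∀ ε > 0, ∑ i ∈ S, ((n i : ℝ) - ρ) ^ 2 ≤ B ^ 2 + ε := by
      intro ε hε
      refine le_of_tendsto hlim ?_
      filter_upwards [hineq ε hε] with s hs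
      refine le_trans ?_ hs
      exact Finset.sum_le_sum_of_subset_of_nonneg (Finset.subset_univ _)
        (fun i _ _ => sq_nonneg _)
    have hge : (S.card : ℝ) ≤ ∑ i ∈ S, ((n i : ℝ) - ρ) ^ 2 := by
      have : ∑ _i ∈ S, (1 : ℝ) ≤ ∑ i ∈ S, ((n i : ℝ) - ρ) ^ 2 := by
        refine Finset.sum_le_sum fun i hi => ?_
        have hPi : P i := (Finset.mem_filter.1 hi).2
        have h1 : n i - ρ ≠ 0 := sub_ne_zero.2 (hn i hPi).1
        have h2 : (1 : ℤ) ≤ (n i - ρ) ^ 2 := by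
          have : 0 < (n i - ρ) ^ 2 := by positivity
          omega
        exact_mod_cast h2
      simpa using this
    exact le_trans hge (le_of_forall_pos_le_add hle)
  · intro i hi hex
    by_contra hnt
    exact hi (Finset.mem_filter.2 ⟨Finset.mem_univ i, hex, hnt⟩)

end

end Pool.Agent.Helper45.TN
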